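import Mathlib
import Pool.Agent.Helper189.FreeRep

/-!
# MP_c4ae4c_al : words defining group laws on all free nilpotent groups

A word `w` in the free group on `a, b` has property (N) if and only if `w = ab` or `w = ba`.

The proof: property (N) and residual nilpotence of the free group of rank three give
`w(w(x,y),z) = w(x,w(y,z))` in every group.  We apply this in the affine groups
`R^* ⋉ R` of rings `R` (Fox calculus).
-/

namespace Pool.Agent.Results.MP_c4ae4c_al.GroupWords

/-- The value `w(x,y)` of the word `w` in the free group on two letters (`0` is `a`, `1` is `b`)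
at the elements `x, y` of a group. -/
def wordOp {G : Type} [Group G] (w : FreeGroup (Fin 2)) (x y : G) : G :=
  FreeGroup.lift ![x, y] w

/-- The binary operation `op` makes the set `G` into a group. -/
def IsGroupLaw {G : Type} (op : G → G → G) : Prop :=
  (∀ x y z, op (op x y) z = op x (op y z)) ∧
    ∃ e, (∀ x, op e x = x ∧ op x e = x) ∧ ∀ x, ∃ y, op x y = e ∧ op y x = e

/-- Property (N). Mathlib's `lowerCentralSeries k` is `γ_{k+1}`. -/
def PropertyN (w : FreeGroup (Fin 2)) : Prop :=
  ∀ n : ℕ, 2 ≤ n → ∀ k : ℕ,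
    IsGroupLaw (fun x y :
      FreeGroup (Fin n) ⧸ (⊤ : Subgroup (FreeGroup (Fin n))).lowerCentralSeries k => wordOp w x y)

section basic

variable {G H : Type} [Group G] [Group H]

lemma map_wordOp (f : G →* H) (w : FreeGroup (Fin 2)) (x y : G) :
    f (wordOp w x y) = wordOp w (f x) (f y) := by
  have : f.comp (FreeGroup.lift ![x, y]) = FreeGroup.lift ![f x, f y] := by
    ext i; fin_cases i <;> simp
  exact DFunLike.congr_fun this w

lemma wordOp_mul (w w' : FreeGroup (Fin 2)) (x y : G) :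
    wordOp (w * w') x y = wordOp w x y * wordOp w' x y := by
  simp [wordOp]

lemma wordOp_comm {A : Type} [CommGroup A] (w : FreeGroup (Fin 2)) (x y x' y' : A) :
    wordOp w (x * x') (y * y') = wordOp w x y * wordOp w x' y' := by
  have : FreeGroup.lift ![x * x', y * y'] =
      FreeGroup.lift ![x, y] * FreeGroup.lift ![x', y'] := by
    ext i; fin_cases i <;> simp
  exact DFunLike.congr_fun this w

end basic

/-- The affine group of a ring. -/
@[ext] structure Aff (R : Type) [Ring R] where
  u : Rˣ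
  m : R

namespace Aff

variable {R : Type} [Ring R]

instance : Mul (Aff R) := ⟨fun x y => ⟨x.u * y.u, x.m + x.u * y.m⟩⟩
instance : One (Aff R) := ⟨⟨1, 0⟩⟩
instance : Inv (Aff R) := ⟨fun x => ⟨x.u⁻¹, -((x.u⁻¹ : Rˣ) * x.m)⟩⟩

@[simp] lemma mul_u (x y : Aff R) : (x * y).u = x.u * y.u := rfl
@[simp] lemma mul_m (x y : Aff R) : (x * y).m = x.m + x.u * y.m := rfl
@[simp] lemma one_u : (1 : Aff R).u = 1 := rfl
@[simp] lemma one_m : (1 : Aff R).m = 0 := rfl
@[simp] lemma inv_u (x : Aff R) : (x⁻¹).u = x.u⁻¹ := rfl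
@[simp] lemma inv_m (x : Aff R) : (x⁻¹).m = -((x.u⁻¹ : Rˣ) * x.m) := rfl

instance : Group (Aff R) := Group.ofLeftAxioms
  (by intro x y z; ext <;> simp [mul_assoc, mul_add, add_assoc])
  (by intro x; ext <;> simp)
  (by intro x; ext <;> simp)

/-- projection to the units -/
def pu : Aff R →* Rˣ where
  toFun x := x.u
  map_one' := rfl
  map_mul' _ _ := rfl

/-- functoriality -/
def map {S : Type} [Ring S] (f : R →+* S) : Aff R →* Aff S where
  toFun x := ⟨Units.map f x.u, f x.m⟩
  map_one' := by ext <;> simp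
  map_mul' x y := by ext <;> simp

/-- the cocycle `u ↦ u - 1` -/
def coc : Rˣ →* Aff R where
  toFun u := ⟨u, u - 1⟩
  map_one' := by ext <;> simp
  map_mul' x y := by
    ext
    · simp
    · simp [mul_sub]

/-- translations -/
def tr : Multiplicative ℤ →* Aff R where
  toFun n := ⟨1, (Multiplicative.toAdd n : ℤ)⟩
  map_one' := by ext <;> simp
  map_mul' x y := by ext <;> simp

end Aff

variable {R : Type} [Ring R]

/-- Fox derivative with respect to the second letter, evaluated at units. -/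
def P (w : FreeGroup (Fin 2)) (u v : Rˣ) : R := (wordOp w (⟨u, 0⟩ : Aff R) ⟨v, 1⟩).m

/-- Fox derivative with respect to the first letter, evaluated at units. -/
def Q (w : FreeGroup (Fin 2)) (u v : Rˣ) : R := (wordOp w (⟨u, 1⟩ : Aff R) ⟨v, 0⟩).m

lemma wordOp_u (w : FreeGroup (Fin 2)) (x y : Aff R) : (wordOp w x y).u = wordOp w x.u y.u :=
  map_wordOp Aff.pu w x y

lemma P_mul (w w' : FreeGroup (Fin 2)) (u v : Rˣ) :
    P (w * w') u v = P w u v + (wordOp w u v : Rˣ) * P w' u v := by
  simp only [P, wordOp_mul, Aff.mul_m, wordOp_u]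

lemma Q_mul (w w' : FreeGroup (Fin 2)) (u v : Rˣ) :
    Q (w * w') u v = Q w u v + (wordOp w u v : Rˣ) * Q w' u v := by
  simp only [Q, wordOp_mul, Aff.mul_m, wordOp_u]

lemma lin (w : FreeGroup (Fin 2)) (u v : Rˣ) (m n : R) :
    (wordOp w (⟨u, m⟩ : Aff R) ⟨v, n⟩).m = Q w u v * m + P w u v * n := by
  induction w using FreeGroup.induction_on with
  | C1 => simp [wordOp, P, Q]
  | of i => fin_cases i <;> simp [wordOp, P, Q]
  | inv_of i _ => fin_cases i <;> simp [wordOp, P, Q]
  | mul x y hx hy =>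
    rw [wordOp_mul, Aff.mul_m, hx, hy, P_mul, Q_mul, wordOp_u]
    noncomm_ring

lemma fund (w : FreeGroup (Fin 2)) (u v : Rˣ) :
    ((wordOp w u v : Rˣ) : R) - 1 = Q w u v * (u - 1) + P w u v * (v - 1) := by
  rw [← lin]
  have := map_wordOp (Aff.coc (R := R)) w u v
  exact congrArg Aff.m this

lemma P_map {S : Type} [Ring S] (f : R →+* S) (w : FreeGroup (Fin 2)) (u v : Rˣ) :
    P w (Units.map f u : Sˣ) (Units.map f v : Sˣ) = f (P w u v) := by
  have := map_wordOp (Aff.map f) w (⟨u, 0⟩ : Aff R) ⟨v, 1⟩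
  have h2 := congrArg Aff.m this
  have e1 : Aff.map f (⟨u, 0⟩ : Aff R) = ⟨Units.map f u, 0⟩ := by ext <;> simp [Aff.map]
  have e2 : Aff.map f (⟨v, 1⟩ : Aff R) = ⟨Units.map f v, 1⟩ := by ext <;> simp [Aff.map]
  rw [e1, e2] at h2
  exact h2.symm

section assoc

variable (w : FreeGroup (Fin 2))

/-- The hypotheses on the word: associativity in all groups and exponent sums one. -/
structure Good (w : FreeGroup (Fin 2)) : Prop where
  assoc : ∀ {G : Type} [Group G] (x y z : G),
    wordOp w (wordOp w x y) z = wordOp w x (wordOp w y z)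
  left : ∀ {G : Type} [Group G] (x : G), wordOp w x 1 = x
  right : ∀ {G : Type} [Group G] (x : G), wordOp w 1 x = x

variable {w}

lemma Good.comm (hw : Good w) {A : Type} [CommGroup A] (x y : A) : wordOp w x y = x * y := by
  have := wordOp_comm w x 1 1 y
  rw [hw.left, hw.right] at this
  simpa using this

lemma Good.one (hw : Good w) : P w (1 : Rˣ) 1 = 1 := by
  have := map_wordOp (Aff.tr (R := R)) w (1 : Multiplicative ℤ) (Multiplicative.ofAdd 1)
  rw [hw.right] at this
  have h2 := congrArg Aff.m this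
  have e1 : (Aff.tr (1 : Multiplicative ℤ) : Aff R) = ⟨1, 0⟩ := by ext <;> simp
  have e2 : (Aff.tr (Multiplicative.ofAdd (1 : ℤ)) : Aff R) = ⟨1, 1⟩ := by
    ext <;> simp [Aff.tr]
  rw [e1, e2] at h2
  exact h2.symm

lemma Good.cocycle (hw : Good w) (u v t : Rˣ) :
    P w (wordOp w u v) t = P w u (wordOp w v t) * P w v t := by
  have h := congrArg Aff.m (hw.assoc (⟨u, 0⟩ : Aff R) ⟨v, 0⟩ ⟨t, 1⟩)
  have e1 : wordOp w (⟨u, 0⟩ : Aff R) ⟨v, 0⟩ = ⟨wordOp w u v, 0⟩ := by
    ext
    · rw [wordOp_u]
    · rw [lin]; simp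
  have e2 : wordOp w (⟨v, 0⟩ : Aff R) ⟨t, 1⟩ = ⟨wordOp w v t, P w v t⟩ := by
    ext
    · rw [wordOp_u]
    · rw [lin]; simp
  rw [e1, e2, lin, lin] at h
  simpa using h

end assoc

open LaurentPolynomial in
/-- the unit `T` -/
noncomputable def TU : (LaurentPolynomial ℤ)ˣ where
  val := T 1
  inv := T (-1)
  val_inv := by rw [← T_add]; simp
  inv_val := by rw [← T_add]; simp

/-- evaluation of Laurent polynomials at a unit of a noncommutative ring -/
noncomputable def ev (u : Rˣ) : LaurentPolynomial ℤ →ₐ[ℤ] R :=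
  AddMonoidAlgebra.lift ℤ R ℤ ((Units.coeHom R).comp (zpowersHom Rˣ u))

lemma ev_T (u : Rˣ) (n : ℤ) : ev u (LaurentPolynomial.T n) = ((u ^ n : Rˣ) : R) := by
  unfold ev LaurentPolynomial.T
  rw [AddMonoidAlgebra.lift_single]
  simp

lemma ev_TU (u : Rˣ) : Units.map ((ev u : LaurentPolynomial ℤ →ₐ[ℤ] R) : LaurentPolynomial ℤ →+* R) TU = u := by
  ext
  have := ev_T u 1
  simpa [TU] using this

open LaurentPolynomial Polynomial in
/-- Units of `ℤ[T;T⁻¹]`. -/
lemma unit_laurent {p q : LaurentPolynomial ℤ} (h : q * p = 1) :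
    ∃ (k : ℤ) (ε : ℤ), p = LaurentPolynomial.C ε * LaurentPolynomial.T k := by
  obtain ⟨n, f, hf⟩ := exists_T_pow p
  obtain ⟨m, g, hg⟩ := exists_T_pow q
  have h1 : g * f = X ^ (m + n) := by
    apply Polynomial.toLaurent_injective
    rw [map_mul, hf, hg, Polynomial.toLaurent_X_pow]
    have : q * T (m : ℤ) * (p * T (n : ℤ)) = (q * p) * (T (m : ℤ) * T (n : ℤ)) := by ring
    rw [this, h, one_mul, ← T_add]
    push_cast; rfl
  have h2 : f ∣ X ^ (m + n) := ⟨g, by rw [← h1, mul_comm]⟩
  obtain ⟨i, -, hi⟩ := (dvd_prime_pow Polynomial.prime_X _).1 h2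
  obtain ⟨c, hc⟩ := hi.symm
  obtain ⟨r, -, hr⟩ := Polynomial.isUnit_iff.1 c.isUnit
  refine ⟨(i : ℤ) - n, r, ?_⟩
  have h3 : p * T (n : ℤ) = LaurentPolynomial.C r * T (i : ℤ) := by
    rw [← hf, ← hc, ← hr, map_mul, Polynomial.toLaurent_X_pow, Polynomial.toLaurent_C, mul_comm]
  calc p = p * T (n : ℤ) * T (-(n : ℤ)) := by rw [mul_assoc, ← T_add]; simp
    _ = _ := by rw [h3, mul_assoc, ← T_add, sub_eq_add_neg]

lemma Good.P_one (w : FreeGroup (Fin 2)) (hw : Good w) :
    ∃ k : ℤ, ∀ {R : Type} [Ring R] (u : Rˣ), P w u 1 = ((u ^ k : Rˣ) : R) := by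
  have h0 : P w TU⁻¹ TU * P w TU 1 = (1 : LaurentPolynomial ℤ) := by
    have := hw.cocycle (R := LaurentPolynomial ℤ) TU⁻¹ TU 1
    rw [hw.left, hw.comm, inv_mul_cancel, hw.one] at this
    exact this.symm
  obtain ⟨k, ε, hk⟩ := unit_laurent h0
  have h1 : ∀ {R : Type} [Ring R] (u : Rˣ), P w u 1 = (ε : R) * ((u ^ k : Rˣ) : R) := by
    intro R _ u
    have := P_map ((ev u : LaurentPolynomial ℤ →ₐ[ℤ] R) : LaurentPolynomial ℤ →+* R) w TU 1
    rw [ev_TU, map_one, hk] at this
    rw [this]
    have e : LaurentPolynomial.C ε = ((ε : ℤ) : LaurentPolynomial ℤ) := by simp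
    rw [e]
    simp [ev_T]
  have h2 : ε = 1 := by
    have := h1 (R := ℤ) 1
    rw [hw.one] at this
    simpa using this.symm
  refine ⟨k, fun {R} _ u => ?_⟩
  rw [h1, h2]; simp

lemma Good.P_eq (w : FreeGroup (Fin 2)) (hw : Good w) :
    ∃ k : ℤ, ∀ {R : Type} [Ring R] (u v : Rˣ),
      P w u v = ((wordOp w u v ^ k * v ^ (-k) : Rˣ) : R) := by
  obtain ⟨k, hk⟩ := hw.P_one
  refine ⟨k, fun {R} _ u v => ?_⟩
  have := hw.cocycle u v 1
  rw [hw.left, hk, hk] at this
  rw [Units.val_mul, this, mul_assoc, ← Units.val_mul, zpow_neg, mul_inv_cancel]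
  simp

/-- exchange of the letters -/
def sw : FreeGroup (Fin 2) →* FreeGroup (Fin 2) :=
  FreeGroup.lift ![FreeGroup.of 1, FreeGroup.of 0]

lemma wordOp_sw {G : Type} [Group G] (w : FreeGroup (Fin 2)) (x y : G) :
    wordOp (sw w) x y = wordOp w y x := by
  have : (FreeGroup.lift ![x, y]).comp sw = FreeGroup.lift ![y, x] := by
    ext i; fin_cases i <;> simp [sw]
  exact DFunLike.congr_fun this w

lemma Good.swap {w : FreeGroup (Fin 2)} (hw : Good w) : Good (sw w) where
  assoc x y z := by simp only [wordOp_sw]; exact (hw.assoc z y x).symm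
  left x := by rw [wordOp_sw]; exact hw.right x
  right x := by rw [wordOp_sw]; exact hw.left x

lemma Good.Q_eq (w : FreeGroup (Fin 2)) (hw : Good w) :
    ∃ l : ℤ, ∀ {R : Type} [Ring R] (u v : Rˣ),
      Q w u v = ((wordOp w u v ^ l * u ^ (-l) : Rˣ) : R) := by
  obtain ⟨l, hl⟩ := hw.swap.P_eq
  refine ⟨l, fun {R} _ u v => ?_⟩
  have := hl v u
  rw [wordOp_sw] at this
  rw [← this]
  simp only [P, Q, wordOp_sw]

/-- the letters -/
abbrev la : FreeGroup (Fin 2) := FreeGroup.of 0
/-- the letters -/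
abbrev lb : FreeGroup (Fin 2) := FreeGroup.of 1

lemma wordOp_self (w : FreeGroup (Fin 2)) : wordOp w la lb = w := by
  have : FreeGroup.lift ![la, lb] = MonoidHom.id (FreeGroup (Fin 2)) := by
    ext i; fin_cases i <;> simp
  exact DFunLike.congr_fun this w

/-- The key algebraic statement. -/
theorem Good.classify {w : FreeGroup (Fin 2)} (hw : Good w) : w = la * lb ∨ w = lb * la := by
  classical
  obtain ⟨k, hk⟩ := hw.P_eq
  obtain ⟨l, hl⟩ := hw.Q_eq
  -- exponent sums
  let ea : FreeGroup (Fin 2) →* Multiplicative ℤ := FreeGroup.lift ![Multiplicative.ofAdd 1, 1]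
  let eb : FreeGroup (Fin 2) →* Multiplicative ℤ := FreeGroup.lift ![1, Multiplicative.ofAdd 1]
  have hea : ea w = Multiplicative.ofAdd 1 := hw.left (Multiplicative.ofAdd (1 : ℤ))
  have heb : eb w = Multiplicative.ofAdd 1 := hw.right (Multiplicative.ofAdd (1 : ℤ))
  have eaa : ea la = Multiplicative.ofAdd 1 := by simp [ea]
  have eab : ea lb = 1 := by simp [ea]
  have eba : eb la = 1 := by simp [eb]
  have ebb : eb lb = Multiplicative.ofAdd 1 := by simp [eb]
  set g1 : FreeGroup (Fin 2) := w ^ l * la ^ (-l) with hg1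
  set g2 : FreeGroup (Fin 2) := w ^ k * lb ^ (-k) with hg2
  -- the group ring
  let ι : FreeGroup (Fin 2) →* (MonoidAlgebra ℤ (FreeGroup (Fin 2)))ˣ :=
    (MonoidAlgebra.of ℤ (FreeGroup (Fin 2))).toHomUnits
  have hι : ∀ g, ((ι g : (MonoidAlgebra ℤ (FreeGroup (Fin 2)))ˣ) :
      MonoidAlgebra ℤ (FreeGroup (Fin 2))) = MonoidAlgebra.single g 1 := fun g => rfl
  have hwι : wordOp w (ι la) (ι lb) = ι w := by
    rw [← map_wordOp, wordOp_self]
  have hf := fund w (ι la) (ι lb)
  have hQ : Q w (ι la) (ι lb) = (ι g1 : (MonoidAlgebra ℤ (FreeGroup (Fin 2)))ˣ) := by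
    rw [hl, hwι, hg1, map_mul, map_zpow, map_zpow]
  have hP : P w (ι la) (ι lb) = (ι g2 : (MonoidAlgebra ℤ (FreeGroup (Fin 2)))ˣ) := by
    rw [hk, hwι, hg2, map_mul, map_zpow, map_zpow]
  rw [hQ, hP, hwι, mul_sub, mul_sub, ← Units.val_mul, ← Units.val_mul, ← map_mul, ← map_mul,
    mul_one, mul_one] at hf
  simp only [hι] at hf
  have hf' : (MonoidAlgebra.single w 1 + MonoidAlgebra.single g1 1 + MonoidAlgebra.single g2 1 :
      MonoidAlgebra ℤ (FreeGroup (Fin 2))) = MonoidAlgebra.single 1 1 +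
      MonoidAlgebra.single (g1 * la) 1 + MonoidAlgebra.single (g2 * lb) 1 := by
    have h1 : (1 : MonoidAlgebra ℤ (FreeGroup (Fin 2))) = MonoidAlgebra.single 1 1 := rfl
    rw [h1] at hf
    rw [sub_eq_iff_eq_add] at hf
    rw [hf]; abel
  have hco : ∀ x : FreeGroup (Fin 2),
      (if w = x then (1 : ℤ) else 0) + (if g1 = x then 1 else 0) + (if g2 = x then 1 else 0) =
      (if 1 = x then 1 else 0) + (if g1 * la = x then 1 else 0) +
        (if g2 * lb = x then 1 else 0) := by
    intro x
    have := congrArg (fun f : MonoidAlgebra ℤ (FreeGroup (Fin 2)) => f.coeff x) hf'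
    simpa [Finsupp.single_apply] using this
  have hw1 : w ≠ 1 := by
    rintro rfl
    rw [map_one] at hea
    exact absurd hea (by decide)
  have hwa : w ≠ la := by
    intro h
    rw [h, eba] at heb
    exact absurd heb (by decide)
  have hwb : w ≠ lb := by
    intro h
    rw [h, eab] at hea
    exact absurd hea (by decide)
  have h1 := hco 1
  have ha := hco la
  have hb := hco lb
  have hz : ∀ {m : ℤ}, (Multiplicative.ofAdd (1 : ℤ)) ^ m = 1 → m = 0 := by
    intro m hm
    have := congrArg Multiplicative.toAdd hm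
    simpa using this
  have hz1 : ∀ {m : ℤ}, (Multiplicative.ofAdd (1 : ℤ)) ^ m = Multiplicative.ofAdd (1 : ℤ) →
      m = 1 := by
    intro m hm
    have := congrArg Multiplicative.toAdd hm
    simpa using this
  by_cases hg11 : g1 = 1
  · have hl0 : l = 0 := by
      have := congrArg eb hg11
      rw [hg1, map_mul, map_zpow, map_zpow, eba, heb, one_zpow, mul_one, eb.map_one] at this
      exact hz this
    have hg1' : (1 : FreeGroup (Fin 2)) * la = la := one_mul _
    rw [hg11, hg1'] at ha
    have hg2a : g2 = la := by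
      by_contra hne
      rw [if_neg hwa, if_neg hne, if_pos rfl] at ha
      have h3 : (1 : FreeGroup (Fin 2)) ≠ la := by
        intro h
        have := congrArg ea h
        rw [map_one, eaa] at this
        exact absurd this (by decide)
      rw [if_neg h3] at ha
      split_ifs at ha <;> omega
    have hk1 : k = 1 := by
      have := congrArg ea hg2a
      rw [hg2, map_mul, map_zpow, map_zpow, eab, hea, one_zpow, mul_one, eaa] at this
      exact hz1 this
    left
    rw [hk1] at hg2
    rw [hg2a] at hg2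
    rw [hg2]; group
  · by_cases hg21 : g2 = 1
    · have hk0 : k = 0 := by
        have := congrArg ea hg21
        rw [hg2, map_mul, map_zpow, map_zpow, eab, hea, one_zpow, mul_one, ea.map_one] at this
        exact hz this
      have hg2' : (1 : FreeGroup (Fin 2)) * lb = lb := one_mul _
      rw [hg21, hg2'] at hb
      have hg1b : g1 = lb := by
        by_contra hne
        rw [if_neg hwb, if_neg hne, if_pos rfl] at hb
        have h3 : (1 : FreeGroup (Fin 2)) ≠ lb := by
          intro h
          have := congrArg eb h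
          rw [map_one, ebb] at this
          exact absurd this (by decide)
        rw [if_neg h3] at hb
        split_ifs at hb <;> omega
      have hl1 : l = 1 := by
        have := congrArg eb hg1b
        rw [hg1, map_mul, map_zpow, map_zpow, eba, heb, one_zpow, mul_one, ebb] at this
        exact hz1 this
      right
      rw [hl1] at hg1
      rw [hg1b] at hg1
      rw [hg1]; group
    · exfalso
      rw [if_neg hw1, if_neg hg11, if_neg hg21, if_pos rfl] at h1
      split_ifs at h1 <;> omega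

/-- Property (N) implies the hypotheses `Good`. -/
theorem good_of_N {w : FreeGroup (Fin 2)} (hN : PropertyN w) : Good w := by
  -- associativity in all groups
  have hassoc : ∀ {G : Type} [Group G] (x y z : G),
      wordOp w (wordOp w x y) z = wordOp w x (wordOp w y z) := by
    have key : wordOp w (wordOp w (FreeGroup.of (0 : Fin 3)) (FreeGroup.of 1)) (FreeGroup.of 2) =
        wordOp w (FreeGroup.of 0) (wordOp w (FreeGroup.of 1) (FreeGroup.of 2)) := by
      rw [← inv_mul_eq_one]
      apply Pool.Agent.Helper189.FreeRep.lcs_bot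
      intro k
      have h := (hN 3 (by norm_num) k).1 (QuotientGroup.mk' _ (FreeGroup.of 0))
        (QuotientGroup.mk' _ (FreeGroup.of 1)) (QuotientGroup.mk' _ (FreeGroup.of 2))
      simp only [← map_wordOp] at h
      exact QuotientGroup.eq.1 h
    intro G _ x y z
    have h := congrArg (FreeGroup.lift ![x, y, z]) key
    simpa [map_wordOp] using h
  -- exponent sums
  have hexp : wordOp w (Multiplicative.ofAdd (1 : ℤ)) 1 = Multiplicative.ofAdd 1 ∧
      wordOp w 1 (Multiplicative.ofAdd (1 : ℤ)) = Multiplicative.ofAdd 1 := by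
    obtain ⟨-, e, he, -⟩ := hN 2 le_rfl 1
    let φ : FreeGroup (Fin 2) →* Multiplicative ℤ :=
      FreeGroup.lift fun _ => Multiplicative.ofAdd (1 : ℤ)
    have hφ : (⊤ : Subgroup (FreeGroup (Fin 2))).lowerCentralSeries 1 ≤ φ.ker := by
      rw [Subgroup.top_lowerCentralSeries_one]
      exact Abelianization.commutator_subset_ker φ
    let ψ := QuotientGroup.lift _ φ hφ
    have h1 : ∀ g : FreeGroup (Fin 2), wordOp w (ψ e) (φ g) = φ g ∧
        wordOp w (φ g) (ψ e) = φ g := by
      intro g
      have hg : φ g = ψ (QuotientGroup.mk g) := rfl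
      rw [hg]
      constructor
      · rw [← map_wordOp]
        exact congrArg ψ (he _).1
      · rw [← map_wordOp]
        exact congrArg ψ (he _).2
    have h2 := h1 1
    rw [map_one] at h2
    have h3 := h1 (FreeGroup.of 0)
    have h4 : φ (FreeGroup.of 0) = Multiplicative.ofAdd (1 : ℤ) := by simp [φ]
    rw [h4] at h3
    constructor
    · have := wordOp_comm w (Multiplicative.ofAdd (1 : ℤ)) 1 1 (ψ e)
      rw [mul_one, one_mul, h2.2, mul_one, h3.2] at this
      exact this.symm
    · have := wordOp_comm w (ψ e) 1 1 (Multiplicative.ofAdd (1 : ℤ))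
      rw [mul_one, one_mul, h2.1, one_mul, h3.1] at this
      exact this.symm
  refine ⟨hassoc, ?_, ?_⟩
  · intro G _ x
    have := map_wordOp (zpowersHom G x) w (Multiplicative.ofAdd (1 : ℤ)) 1
    rw [hexp.1] at this
    simpa using this.symm
  · intro G _ x
    have := map_wordOp (zpowersHom G x) w 1 (Multiplicative.ofAdd (1 : ℤ))
    rw [hexp.2] at this
    simpa using this.symm

/-- **Answer to Q1**: a word `w` has property (N) if and only if `w = ab` or `w = ba`. -/
theorem result : ∀ w : FreeGroup (Fin 2), PropertyN w ↔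
    w = FreeGroup.of 0 * FreeGroup.of 1 ∨ w = FreeGroup.of 1 * FreeGroup.of 0 := by
  intro w
  constructor
  · intro hN
    exact (good_of_N hN).classify
  · rintro (rfl | rfl)
    · intro n _ k
      have h : ∀ x y : FreeGroup (Fin n) ⧸ (⊤ : Subgroup (FreeGroup (Fin n))).lowerCentralSeries k,
          wordOp (FreeGroup.of 0 * FreeGroup.of 1) x y = x * y := fun x y => by simp [wordOp]
      refine ⟨fun x y z => ?_, 1, fun x => ?_, fun x => ⟨x⁻¹, ?_⟩⟩
      · simp only [h]; exact mul_assoc x y z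
      · simp only [h]; exact ⟨one_mul x, mul_one x⟩
      · simp only [h]; exact ⟨mul_inv_cancel x, inv_mul_cancel x⟩
    · intro n _ k
      have h : ∀ x y : FreeGroup (Fin n) ⧸ (⊤ : Subgroup (FreeGroup (Fin n))).lowerCentralSeries k,
          wordOp (FreeGroup.of 1 * FreeGroup.of 0) x y = y * x := fun x y => by simp [wordOp]
      refine ⟨fun x y z => ?_, 1, fun x => ?_, fun x => ⟨x⁻¹, ?_⟩⟩
      · simp only [h]; exact (mul_assoc z y x).symm
      · simp only [h]; exact ⟨mul_one x, one_mul x⟩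
      · simp only [h]; exact ⟨inv_mul_cancel x, mul_inv_cancel x⟩

end Pool.Agent.Results.MP_c4ae4c_al.GroupWords
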